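import Pool.Agent.Helper20.BK.FreeDefs
import Pool.Agent.Helper20.BK.FreeA

/-!
# The norm of the Lipschitz free `p`-space, from the universal property
-/

set_option autoImplicit false

namespace Pool.Agent.Helper20.BK

universe u v w

open Filter Finsupp

/-- The costs of the representations of `μ` by molecules. -/
def Rep {M : Type u} [MetricSpace M] (p : ℝ) (μ : M →₀ ℝ) : Set ℝ :=
  {t : ℝ | ∃ (n : ℕ) (b : Fin n → ℝ) (u v : Fin n → M),
    μ = ∑ j, b j • (Finsupp.single (u j) (1:ℝ) - Finsupp.single (v j) (1:ℝ)) ∧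
    t = ∑ j, |b j| ^ p * dist (u j) (v j) ^ p}

theorem rep_nonneg {M : Type u} [MetricSpace M] {p : ℝ} {μ : M →₀ ℝ} {t : ℝ} (ht : t ∈ Rep p μ) :
    0 ≤ t := by
  obtain ⟨n, b, u, v, _, rfl⟩ := ht
  exact Finset.sum_nonneg fun j _ => by positivity

theorem rep_bddBelow {M : Type u} [MetricSpace M] (p : ℝ) (μ : M →₀ ℝ) : BddBelow (Rep p μ) :=
  ⟨0, fun _ ht => rep_nonneg ht⟩

theorem rep_zero {M : Type u} [MetricSpace M] (p : ℝ) : (0 : ℝ) ∈ Rep p (0 : M →₀ ℝ) :=
  ⟨0, Fin.elim0, Fin.elim0, Fin.elim0, by simp, by simp⟩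

theorem rep_add {M : Type u} [MetricSpace M] {p : ℝ} {μ ν : M →₀ ℝ} {s t : ℝ} (hs : s ∈ Rep p μ)
    (ht : t ∈ Rep p ν) : s + t ∈ Rep p (μ + ν) := by
  obtain ⟨m, b, u, v, h1, rfl⟩ := hs
  obtain ⟨n, b', u', v', h2, rfl⟩ := ht
  refine ⟨m + n, Fin.append b b', Fin.append u u', Fin.append v v', ?_, ?_⟩
  · rw [Fin.sum_univ_add]
    simp only [Fin.append_left, Fin.append_right]
    rw [← h1, ← h2]
  · rw [Fin.sum_univ_add]
    simp only [Fin.append_left, Fin.append_right]

theorem rep_smul {M : Type u} [MetricSpace M] {p : ℝ} {μ : M →₀ ℝ} {t : ℝ} (c : ℝ)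
    (ht : t ∈ Rep p μ) : |c| ^ p * t ∈ Rep p (c • μ) := by
  obtain ⟨m, b, u, v, h1, rfl⟩ := ht
  refine ⟨m, fun j => c * b j, u, v, ?_, ?_⟩
  · rw [h1, Finset.smul_sum]
    exact Finset.sum_congr rfl fun j _ => by rw [smul_smul]
  · rw [Finset.mul_sum]
    refine Finset.sum_congr rfl fun j _ => ?_
    rw [abs_mul, Real.mul_rpow (abs_nonneg _) (abs_nonneg _), mul_assoc]

/-- The finitely supported measures of mass zero. -/
noncomputable def Mol (M : Type u) : Submodule ℝ (M →₀ ℝ) :=
  LinearMap.ker (Finsupp.linearCombination ℝ (fun _ : M => (1:ℝ)))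

theorem mem_mol {M : Type u} {μ : M →₀ ℝ} : μ ∈ Mol M ↔ μ.sum (fun _ a => a) = 0 := by
  rw [Mol, LinearMap.mem_ker, Finsupp.linearCombination_apply]
  simp

theorem rep_mol {M : Type u} [MetricSpace M] (p : ℝ) (o : M) {μ : M →₀ ℝ} (hμ : μ ∈ Mol M) :
    (Rep p μ).Nonempty := by
  classical
  have key : ∀ ν : M →₀ ℝ, (Rep p (ν - (ν.sum fun _ a => a) • Finsupp.single o (1:ℝ))).Nonempty := by
    intro ν
    induction ν using Finsupp.induction_linear with
    | zero => exact ⟨0, by simpa using rep_zero p⟩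
    | add f g hf hg =>
      obtain ⟨s, hs⟩ := hf
      obtain ⟨t, ht⟩ := hg
      refine ⟨s + t, ?_⟩
      have h := rep_add hs ht
      have h1 : (f + g).sum (fun _ a => a) = f.sum (fun _ a => a) + g.sum (fun _ a => a) :=
        Finsupp.sum_add_index' (fun _ => rfl) (fun _ _ _ => rfl)
      rw [h1, add_smul]
      have h2 : f + g - ((f.sum fun _ a => a) • Finsupp.single o (1:ℝ) +
          (g.sum fun _ a => a) • Finsupp.single o (1:ℝ)) =
          f - (f.sum fun _ a => a) • Finsupp.single o (1:ℝ) +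
            (g - (g.sum fun _ a => a) • Finsupp.single o (1:ℝ)) := by abel
      rw [h2]
      exact h
    | single a b =>
      refine ⟨_, 1, fun _ => b, fun _ => a, fun _ => o, ?_, rfl⟩
      simp [smul_sub]
  have h := key μ
  rw [mem_mol.1 hμ, zero_smul, sub_zero] at h
  exact h

/-- The infimum of the costs. -/
noncomputable def cost {M : Type u} [MetricSpace M] (p : ℝ) (μ : M →₀ ℝ) : ℝ := sInf (Rep p μ)

theorem cost_nonneg {M : Type u} [MetricSpace M] (p : ℝ) (μ : M →₀ ℝ) : 0 ≤ cost p μ :=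
  Real.sInf_nonneg fun _ ht => rep_nonneg ht

theorem cost_le {M : Type u} [MetricSpace M] {p : ℝ} {μ : M →₀ ℝ} {t : ℝ} (ht : t ∈ Rep p μ) :
    cost p μ ≤ t := csInf_le (rep_bddBelow p μ) ht

theorem cost_zero {M : Type u} [MetricSpace M] (p : ℝ) : cost p (0 : M →₀ ℝ) = 0 :=
  le_antisymm (cost_le (rep_zero p)) (cost_nonneg _ _)

theorem cost_add {M : Type u} [MetricSpace M] (p : ℝ) {μ ν : M →₀ ℝ} (hμ : (Rep p μ).Nonempty)
    (hν : (Rep p ν).Nonempty) : cost p (μ + ν) ≤ cost p μ + cost p ν := by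
  have h1 : ∀ s ∈ Rep p μ, ∀ t ∈ Rep p ν, cost p (μ + ν) ≤ s + t := fun s hs t ht =>
    cost_le (rep_add hs ht)
  have h2 : ∀ t ∈ Rep p ν, cost p (μ + ν) - t ≤ cost p μ := fun t ht =>
    le_csInf hμ fun s hs => by linarith [h1 s hs t ht]
  have h3 : cost p (μ + ν) - cost p μ ≤ cost p ν :=
    le_csInf hν fun t ht => by linarith [h2 t ht]
  linarith

theorem cost_smul_le {M : Type u} [MetricSpace M] {p : ℝ} (hp : 0 < p) {μ : M →₀ ℝ}
    (hμ : (Rep p μ).Nonempty) (c : ℝ) : cost p (c • μ) ≤ |c| ^ p * cost p μ := by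
  rcases eq_or_ne c 0 with rfl | hc
  · rw [zero_smul, cost_zero, abs_zero, Real.zero_rpow hp.ne', zero_mul]
  · have hc' : 0 < |c| ^ p := Real.rpow_pos_of_pos (abs_pos.2 hc) p
    have h : cost p (c • μ) / |c| ^ p ≤ cost p μ := by
      refine le_csInf hμ fun t ht => ?_
      rw [div_le_iff₀ hc', mul_comm]
      exact cost_le (rep_smul c ht)
    rwa [div_le_iff₀ hc', mul_comm] at h

theorem cost_smul {M : Type u} [MetricSpace M] {p : ℝ} (hp : 0 < p) {μ : M →₀ ℝ}
    (hμ : (Rep p μ).Nonempty) (c : ℝ) : cost p (c • μ) = |c| ^ p * cost p μ := by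
  refine le_antisymm (cost_smul_le hp hμ c) ?_
  rcases eq_or_ne c 0 with rfl | hc
  · rw [zero_smul, cost_zero, abs_zero, Real.zero_rpow hp.ne', zero_mul]
  · have hc' : 0 < |c| ^ p := Real.rpow_pos_of_pos (abs_pos.2 hc) p
    obtain ⟨t, ht⟩ := hμ
    have h := cost_smul_le hp (μ := c • μ) ⟨_, rep_smul c ht⟩ c⁻¹
    rw [smul_smul, inv_mul_cancel₀ hc, one_smul, abs_inv, Real.inv_rpow (abs_nonneg _)] at h
    calc |c| ^ p * cost p μ ≤ |c| ^ p * ((|c| ^ p)⁻¹ * cost p (c • μ)) := by gcongr
      _ = cost p (c • μ) := by rw [← mul_assoc, mul_inv_cancel₀ hc'.ne', one_mul]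

/-- The completion of the measures of mass zero. -/
theorem exists_space {M : Type u} [MetricSpace M] (p : ℝ) (hp : 0 < p) (o : M) :
    ∃ (E : Type u) (_ : AddCommGroup E) (_ : Module ℝ E) (N : E → ℝ) (j : Mol M →ₗ[ℝ] E),
      PBanach p N ∧ ∀ μ : Mol M, N (j μ) ^ p = cost p (μ : M →₀ ℝ) := by
  classical
  have hrep : ∀ μ : Mol M, (Rep p (μ : M →₀ ℝ)).Nonempty := fun μ => rep_mol p o μ.2
  let f : AddGroupSeminorm (Mol M) :=
    { toFun := fun μ => cost p (μ : M →₀ ℝ)
      map_zero' := by simpa using cost_zero p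
      add_le' := fun μ ν => by
        simpa using cost_add p (hrep μ) (hrep ν)
      neg' := fun μ => by
        have h := cost_smul hp (hrep μ) (-1)
        simpa using h }
  letI inst : SeminormedAddCommGroup (Mol M) := f.toSeminormedAddCommGroup
  have hnorm : ∀ μ : Mol M, ‖μ‖ = cost p (μ : M →₀ ℝ) := fun μ => rfl
  have hsm : ∀ (c : ℝ) (μ : Mol M), ‖c • μ‖ = |c| ^ p * ‖μ‖ := fun c μ => by
    rw [hnorm, hnorm]
    exact cost_smul hp (hrep μ) c
  haveI : UniformContinuousConstSMul ℝ (Mol M) := ⟨fun c => by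
    have hL : LipschitzWith ⟨|c| ^ p, by positivity⟩ (fun μ : Mol M => c • μ) := by
      refine LipschitzWith.of_dist_le_mul fun μ ν => ?_
      rw [dist_eq_norm, dist_eq_norm, ← smul_sub, hsm]
      rfl
    exact hL.uniformContinuous⟩
  let E := UniformSpace.Completion (Mol M)
  have hsmE : ∀ (c : ℝ) (x : E), ‖c • x‖ = |c| ^ p * ‖x‖ := by
    intro c x
    have h1 : Continuous fun x : E => ‖c • x‖ := (continuous_const_smul c).norm
    have h2 : Continuous fun x : E => |c| ^ p * ‖x‖ := continuous_const.mul continuous_norm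
    induction x using UniformSpace.Completion.induction_on with
    | hp => exact isClosed_eq h1 h2
    | ih μ =>
      rw [← UniformSpace.Completion.coe_smul, UniformSpace.Completion.norm_coe,
        UniformSpace.Completion.norm_coe, hsm]
  have hpp : ∀ x : E, (‖x‖ ^ (1 / p)) ^ p = ‖x‖ := fun x => by
    rw [← Real.rpow_mul (norm_nonneg _), one_div, inv_mul_cancel₀ hp.ne', Real.rpow_one]
  refine ⟨E, inferInstance, inferInstance, fun x => ‖x‖ ^ (1 / p),
    { toFun := fun μ => (μ : E)
      map_add' := fun μ ν => UniformSpace.Completion.coe_add μ ν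
      map_smul' := fun c μ => UniformSpace.Completion.coe_smul c μ }, ?_, ?_⟩
  · refine ⟨fun x => by positivity, fun x => ?_, fun c x => ?_, fun x y => ?_, fun s hs => ?_⟩
    · rw [Real.rpow_eq_zero (norm_nonneg _) (by positivity), norm_eq_zero]
    · show ‖c • x‖ ^ (1 / p) = |c| * ‖x‖ ^ (1 / p)
      rw [hsmE, Real.mul_rpow (by positivity) (norm_nonneg _), ← Real.rpow_mul (abs_nonneg _),
        one_div, mul_inv_cancel₀ hp.ne', Real.rpow_one]
    · show (‖x + y‖ ^ (1 / p)) ^ p ≤ (‖x‖ ^ (1 / p)) ^ p + (‖y‖ ^ (1 / p)) ^ p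
      rw [hpp, hpp, hpp]
      exact norm_add_le x y
    · have hc : CauchySeq s := by
        rw [Metric.cauchySeq_iff]
        intro ε hε
        obtain ⟨K, hK⟩ := hs (ε ^ (1 / p)) (by positivity)
        refine ⟨K, fun m hm n hn => ?_⟩
        have h := hK m hm n hn
        rw [dist_eq_norm]
        exact (Real.rpow_lt_rpow_iff (norm_nonneg _) hε.le (by positivity)).1 h
      obtain ⟨z, hz⟩ := cauchySeq_tendsto_of_complete hc
      refine ⟨z, ?_⟩
      have h1 : Tendsto (fun n => ‖s n - z‖) atTop (nhds 0) := tendsto_iff_norm_sub_tendsto_zero.1 hz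
      have h2 := h1.rpow_const (p := 1 / p) (Or.inr (by positivity))
      rwa [Real.zero_rpow (by positivity)] at h2
  · intro μ
    show (‖((μ : Mol M) : E)‖ ^ (1 / p)) ^ p = cost p (μ : M →₀ ℝ)
    rw [hpp, UniformSpace.Completion.norm_coe, hnorm]

/-- The bound of a bounded map by its norm. -/
theorem le_opNorm {E G : Type*} [AddCommGroup E] [Module ℝ E] [AddCommGroup G] [Module ℝ G]
    {N : E → ℝ} {N' : G → ℝ} (hN : ∀ x, 0 ≤ N x) {T : E →ₗ[ℝ] G} (hT : BddMap N N' T) (x : E) :
    N' (T x) ≤ opNorm N N' T * N x := by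
  rcases (hN x).eq_or_lt with h | h
  · obtain ⟨C, _, hC⟩ := hT
    have := hC x
    rwa [← h, mul_zero] at this ⊢
  · obtain ⟨C, hC0, hC⟩ := hT
    rw [← div_le_iff₀ h]
    refine le_csInf ⟨C, hC0, hC⟩ ?_
    rintro C' ⟨_, hC'⟩
    rw [div_le_iff₀ h]
    exact hC' x

/-- The norm of the free space on the measures of mass zero. -/
theorem free_glb {M : Type u} [MetricSpace M] {p : ℝ} (hp : 0 < p) {o : M} {F : Type v}
    [AddCommGroup F] [Module ℝ F] {N : F → ℝ} {δ : M → F} (h : IsFree p o N δ) (μ : M →₀ ℝ)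
    (hμ : μ.sum (fun _ a => a) = 0) :
    IsGLB (Rep p μ) (N (Finsupp.linearCombination ℝ δ μ) ^ p) := by
  classical
  have hB := h.pBanach
  have hNneg : ∀ y, N (-y) = N y := by
    intro y
    have := hB.smul (-1) y
    simpa using this
  have hNsum : ∀ (n : ℕ) (s : Finset (Fin n)) (y : Fin n → F),
      N (∑ i ∈ s, y i) ^ p ≤ ∑ i ∈ s, N (y i) ^ p := by
    intro n s y
    induction s using Finset.induction_on with
    | empty =>
      have : N (0 : F) = 0 := (hB.eq_zero 0).2 rfl
      simp [this, Real.zero_rpow hp.ne']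
    | insert a s ha ih =>
      rw [Finset.sum_insert ha, Finset.sum_insert ha]
      exact (hB.add _ _).trans (by gcongr)
  constructor
  · rintro t ⟨n, b, u, v, h1, rfl⟩
    rw [h1, map_sum]
    refine (hNsum n _ _).trans (Finset.sum_le_sum fun j _ => ?_)
    rw [map_smul, map_sub, Finsupp.linearCombination_single, Finsupp.linearCombination_single,
      one_smul, one_smul, hB.smul, Real.mul_rpow (abs_nonneg _) (hB.nonneg _)]
    have h2 := h.nonexpansive (u j) (v j)
    have h3 := Real.rpow_le_rpow (hB.nonneg _) h2 hp.le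
    gcongr
  · intro t ht
    obtain ⟨E, _, _, N', j, hE, hj⟩ := exists_space p hp o
    -- the molecule of a point
    have hmem : ∀ x y : M, Finsupp.single x (1:ℝ) - Finsupp.single y (1:ℝ) ∈ Mol M := by
      intro x y
      rw [Mol, LinearMap.mem_ker, map_sub, Finsupp.linearCombination_single,
        Finsupp.linearCombination_single]
      simp
    let f : M → E := fun x => j ⟨Finsupp.single x (1:ℝ) - Finsupp.single o (1:ℝ), hmem x o⟩
    have hfsub : ∀ x y, f x - f y =
        j ⟨Finsupp.single x (1:ℝ) - Finsupp.single y (1:ℝ), hmem x y⟩ := by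
      intro x y
      show j _ - j _ = j _
      rw [← map_sub]
      congr 1
      ext1
      simp
    have hf1 : ∀ x y, N' (f x - f y) ≤ 1 * dist x y := by
      intro x y
      rw [one_mul, hfsub, ← Real.rpow_le_rpow_iff (hE.nonneg _) dist_nonneg hp, hj]
      refine cost_le ⟨1, fun _ => 1, fun _ => x, fun _ => y, by simp, by simp⟩
    have hfo : f o = 0 := by
      show j _ = 0
      rw [← map_zero j]
      congr 1
      ext1
      simp
    obtain ⟨T, ⟨hT1, hT2, hT3⟩, _⟩ := h.universal E N' hE f ⟨1, zero_le_one, hf1⟩ hfo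
    have hle : opNorm N N' T ≤ 1 := by
      rw [hT3]
      exact csInf_le ⟨0, fun _ h => h.1⟩ ⟨zero_le_one, hf1⟩
    have hT : ∀ x, N' (T x) ≤ N x := fun x =>
      (le_opNorm hB.nonneg hT1 x).trans (mul_le_of_le_one_left (hB.nonneg x) hle)
    have hTμ : ∀ ν : M →₀ ℝ, T (Finsupp.linearCombination ℝ δ ν) =
        Finsupp.linearCombination ℝ f ν := by
      intro ν
      induction ν using Finsupp.induction_linear with
      | zero => simp
      | add a b ha hb => rw [map_add, map_add, map_add, ha, hb]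
      | single a b => rw [Finsupp.linearCombination_single, Finsupp.linearCombination_single,
          map_smul, hT2]
    have hjμ : ∀ ν : M →₀ ℝ, ∃ h : ν - (ν.sum fun _ a => a) • Finsupp.single o (1:ℝ) ∈ Mol M,
        Finsupp.linearCombination ℝ f ν = j ⟨_, h⟩ := by
      intro ν
      induction ν using Finsupp.induction_linear with
      | zero =>
        refine ⟨by simp, ?_⟩
        rw [map_zero, ← map_zero j]
        congr 1
        ext1
        simp
      | add a b ha hb =>
        obtain ⟨h1, h2⟩ := ha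
        obtain ⟨h3, h4⟩ := hb
        have h5 : (a + b).sum (fun _ a => a) = a.sum (fun _ a => a) + b.sum (fun _ a => a) :=
          Finsupp.sum_add_index' (fun _ => rfl) (fun _ _ _ => rfl)
        have h6 : a + b - ((a + b).sum fun _ a => a) • Finsupp.single o (1:ℝ) =
            a - (a.sum fun _ a => a) • Finsupp.single o (1:ℝ) +
              (b - (b.sum fun _ a => a) • Finsupp.single o (1:ℝ)) := by
          rw [h5, add_smul]; abel
        refine ⟨by rw [h6]; exact Submodule.add_mem _ h1 h3, ?_⟩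
        rw [map_add, h2, h4, ← map_add]
        congr 1
        ext1
        exact h6.symm
      | single a b =>
        have h6 : Finsupp.single a b - ((Finsupp.single a b).sum fun _ a => a) •
            Finsupp.single o (1:ℝ) = b • (Finsupp.single a (1:ℝ) - Finsupp.single o (1:ℝ)) := by
          simp [smul_sub]
        refine ⟨by rw [h6]; exact Submodule.smul_mem _ _ (hmem a o), ?_⟩
        rw [Finsupp.linearCombination_single, ← map_smul]
        congr 1
        ext1
        exact h6.symm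
    obtain ⟨hm, hjm⟩ := hjμ μ
    have h7 : cost p μ ≤ N (Finsupp.linearCombination ℝ δ μ) ^ p := by
      have h8 := Real.rpow_le_rpow (hE.nonneg _) (hT (Finsupp.linearCombination ℝ δ μ)) hp.le
      rw [hTμ, hjm, hj] at h8
      simpa only [hμ, zero_smul, sub_zero] using h8
    exact (le_csInf (rep_mol p o (mem_mol.2 hμ)) ht).trans h7

end Pool.Agent.Helper20.BK
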