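import Mathlib

/-!
# Lipschitz free `p`-spaces: definitions

The definitions of `problems/MP_5e7086_an/problem.md` in the words of the file.
-/

set_option autoImplicit false

namespace Pool.Agent.Helper20.BK

universe u v

/-- `N` is a `p`-norm on the real vector space `X` for which `X` is complete: `(X, N)` is a
`p`-Banach space. -/
structure PBanach (p : ℝ) {X : Type*} [AddCommGroup X] [Module ℝ X] (N : X → ℝ) : Prop where
  nonneg : ∀ x, 0 ≤ N x
  eq_zero : ∀ x, N x = 0 ↔ x = 0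
  smul : ∀ (c : ℝ) (x : X), N (c • x) = |c| * N x
  add : ∀ x y, N (x + y) ^ p ≤ N x ^ p + N y ^ p
  complete : ∀ s : ℕ → X, (∀ ε > 0, ∃ K : ℕ, ∀ m ≥ K, ∀ n ≥ K, N (s m - s n) < ε) →
    ∃ z, Filter.Tendsto (fun n => N (s n - z)) Filter.atTop (nhds 0)

/-- The linear map `T` is bounded. -/
def BddMap {E G : Type*} [AddCommGroup E] [Module ℝ E] [AddCommGroup G] [Module ℝ G]
    (N : E → ℝ) (N' : G → ℝ) (T : E →ₗ[ℝ] G) : Prop :=
  ∃ C : ℝ, 0 ≤ C ∧ ∀ x, N' (T x) ≤ C * N x

/-- The norm of the bounded linear map `T`. -/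
noncomputable def opNorm {E G : Type*} [AddCommGroup E] [Module ℝ E] [AddCommGroup G] [Module ℝ G]
    (N : E → ℝ) (N' : G → ℝ) (T : E →ₗ[ℝ] G) : ℝ :=
  sInf {C : ℝ | 0 ≤ C ∧ ∀ x, N' (T x) ≤ C * N x}

/-- The map `f` is Lipschitz. -/
def LipMap {M G : Type*} [MetricSpace M] [AddCommGroup G] (N' : G → ℝ) (f : M → G) : Prop :=
  ∃ C : ℝ, 0 ≤ C ∧ ∀ x y, N' (f x - f y) ≤ C * dist x y

/-- The Lipschitz constant of the Lipschitz map `f`. -/
noncomputable def lipConst {M G : Type*} [MetricSpace M] [AddCommGroup G]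
    (N' : G → ℝ) (f : M → G) : ℝ :=
  sInf {C : ℝ | 0 ≤ C ∧ ∀ x y, N' (f x - f y) ≤ C * dist x y}

/-- `(F, N)` with `δ : M → F` is the Lipschitz free `p`-space of the metric space `M` with the base
point `o`: it is a `p`-Banach space, `δ o = 0`, `δ` does not increase distances, the span of the image of `δ` is dense,
and every Lipschitz map `f` with `f o = 0` from `M` to a `p`-Banach space `X` is `T ∘ δ` for a unique
bounded linear map `T`, and the norm of `T` is the Lipschitz constant of `f`. -/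
structure IsFree (p : ℝ) {M : Type u} [MetricSpace M] (o : M) {F : Type v} [AddCommGroup F]
    [Module ℝ F] (N : F → ℝ) (δ : M → F) : Prop where
  pBanach : PBanach p N
  base : δ o = 0
  nonexpansive : ∀ x y, N (δ x - δ y) ≤ dist x y
  dense : ∀ z : F, ∀ ε > 0, ∃ y ∈ Submodule.span ℝ (Set.range δ), N (z - y) < ε
  universal : ∀ (X : Type u) [AddCommGroup X] [Module ℝ X] (N' : X → ℝ), PBanach p N' →
    ∀ f : M → X, LipMap N' f → f o = 0 →
      ∃! T : F →ₗ[ℝ] X, BddMap N N' T ∧ (∀ x, T (δ x) = f x) ∧ opNorm N N' T = lipConst N' f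

/-- `Y` is a closed subspace of `(F, N)`. -/
def IsClosedSub {F : Type*} [AddCommGroup F] [Module ℝ F] (N : F → ℝ) (Y : Submodule ℝ F) : Prop :=
  ∀ (s : ℕ → F) (z : F), (∀ n, s n ∈ Y) →
    Filter.Tendsto (fun n => N (s n - z)) Filter.atTop (nhds 0) → z ∈ Y

end Pool.Agent.Helper20.BK
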